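import Pool.Agent.N783.PQ.Def

/-!
# Statements on the field `L = ℚ(θ)`, `f(θ) = 0`: lattices, reduction, distinguished lattices

Project PQ (helper783).
-/

set_option autoImplicit false
set_option linter.all false

open Polynomial IsDedekindDomain Matrix NumberField
open scoped Classical

namespace Pool.Agent.N783.PQ

open Pool.Agent.N352.PJ (Mt Typ dd)
open Pool.Agent.N874.PP (Ev Sq1 U0)

/-! ### The field -/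

section gen

variable {L : Type} [Field L] [NumberField L]

/-- `L = ℚ(θ)` is of degree `2 g + 1` and `f(θ) = 0`. -/
structure IsGen (g : ℕ) (f : ℤ[X]) (θ : L) : Prop where
  mon : f.Monic
  deg : f.natDegree = 2 * g + 1
  root : aeval θ f = 0
  rank : Module.finrank ℚ L = 2 * g + 1
  gen : ∀ x : L, ∃ c : Fin (2 * g + 1) → ℚ, x = ∑ i, (c i : L) * θ ^ (i : ℕ)

variable {g : ℕ} {f : ℤ[X]} {θ : L}

theorem IsGen.span (h : IsGen g f θ) :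
    ⊤ ≤ Submodule.span ℚ (Set.range fun i : Fin (2 * g + 1) => θ ^ (i : ℕ)) := by
  intro x _
  obtain ⟨c, rfl⟩ := h.gen x
  refine Submodule.sum_mem _ fun i _ => ?_
  have e : (c i : L) * θ ^ (i : ℕ) = c i • θ ^ (i : ℕ) := by rw [Algebra.smul_def]; rfl
  rw [e]
  exact Submodule.smul_mem _ _ (Submodule.subset_span ⟨i, rfl⟩)

/-- The basis `1`, `θ`, ..., `θ ^ (2 g)`. -/
noncomputable def IsGen.basis (h : IsGen g f θ) : Module.Basis (Fin (2 * g + 1)) ℚ L :=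
  basisOfTopLeSpanOfCardEqFinrank (fun i : Fin (2 * g + 1) => θ ^ (i : ℕ)) h.span
    (by rw [h.rank, Fintype.card_fin])

theorem IsGen.basis_apply (h : IsGen g f θ) (i : Fin (2 * g + 1)) :
    h.basis i = θ ^ (i : ℕ) := by
  rw [IsGen.basis, coe_basisOfTopLeSpanOfCardEqFinrank]

/-- The coefficient of `θ ^ (2 g)`. -/
noncomputable def IsGen.top (h : IsGen g f θ) : L →ₗ[ℚ] ℚ := h.basis.coord (Fin.last (2 * g))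

/-- `x = v 0 + v 1 θ + ... + v (2 g) θ ^ (2 g)` with integers `v i`. -/
def Crd (g : ℕ) (θ : L) (v : Fin (2 * g + 1) → ℤ) (x : L) : Prop :=
  x = ∑ i, (v i : L) * θ ^ (i : ℕ)

/-- `e` is a basis of a lattice which is unimodular for the form `x y / α` (coefficient of
`θ ^ (2 g)`) and stable under `θ`; `A` and `B` are the Gram matrices of the forms `x y / α` and
`θ x y / α`. -/
structure Lat (h : IsGen g f θ) (α : L) (e : Fin (2 * g + 1) → L) (A B : Mt g ℤ) : Prop where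
  det : A.det = 1 ∨ A.det = -1
  gA : ∀ i j, ((A i j : ℤ) : ℚ) = h.top (e i * e j / α)
  gB : ∀ i j, ((B i j : ℤ) : ℚ) = h.top (θ * (e i * e j) / α)

/-- `e` is a basis of an ideal `I` with `I = {y | y I ⊆ α O}`. -/
structure SDn (g : ℕ) (e : Fin (2 * g + 1) → L) (α : L) : Prop where
  int : ∀ i j, IsIntegral ℤ (e i * e j / α)
  dual : ∀ y : L, (∀ i, IsIntegral ℤ (e i * y / α)) →
    ∃ c : Fin (2 * g + 1) → ℤ, y = ∑ i, (c i : L) * e i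

/-- The prime `𝔓` of `L` divides `p`. -/
def Ov (p : ℕ) (𝔓 : HeightOneSpectrum (𝓞 L)) : Prop := (p : 𝓞 L) ∈ 𝔓.asIdeal

end gen

/-! ### Reduction theory -/

/-- Hermite reduction of a positive definite form. -/
def S_HRB : Prop := ∀ n : ℕ, ∃ C : ℝ, 0 < C ∧ ∀ H : Matrix (Fin n) (Fin n) ℝ, H.PosDef →
  ∃ U : Matrix (Fin n) (Fin n) ℤ, IsUnit U.det ∧
    Monotone (fun i => ((U.map (Int.cast : ℤ → ℝ))ᵀ * H * U.map (Int.cast : ℤ → ℝ)) i i) ∧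
    ∏ i, ((U.map (Int.cast : ℤ → ℝ))ᵀ * H * U.map (Int.cast : ℤ → ℝ)) i i ≤ C * H.det

/-- The type of a unimodular lattice with a majorant. -/
def S_TYP : Prop := ∀ g : ℕ, ∃ C : ℕ, ∀ (H : Mt g ℝ) (A : Mt g ℤ), H.PosDef → H.det = 1 →
  A.IsSymm → (A.det = 1 ∨ A.det = -1) →
  (∀ x y : Fin (2 * g + 1) → ℝ, (x ⬝ᵥ (A.map (Int.cast : ℤ → ℝ) *ᵥ y)) ^ 2 ≤
    (x ⬝ᵥ (H *ᵥ x)) * (y ⬝ᵥ (H *ᵥ y))) →
  ∃ (U : Mt g ℤ) (w : Fin (2 * g + 1) → ℤ), IsUnit U.det ∧ Typ g w ∧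
    ∀ i, ((U.map (Int.cast : ℤ → ℝ))ᵀ * H * U.map (Int.cast : ℤ → ℝ)) i i ≤
      (4 : ℝ) ^ ((C : ℤ) + w i)

/-- The majorant of the form of a lattice. -/
def S_MAJ : Prop := ∀ (g B : ℕ) (L : Type) [Field L] [NumberField L] (f : ℤ[X]) (θ : L), 1 ≤ g →
  ∀ hG : IsGen g f θ, Ht g B f → ∀ (α : L) (e : Fin (2 * g + 1) → L) (A A' : Mt g ℤ), α ≠ 0 →
  Lat hG α e A A' → ∃ H : Mt g ℝ, H.PosDef ∧ H.det = 1 ∧
  (∀ x y : Fin (2 * g + 1) → ℝ, (x ⬝ᵥ (A.map (Int.cast : ℤ → ℝ) *ᵥ y)) ^ 2 ≤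
    (x ⬝ᵥ (H *ᵥ x)) * (y ⬝ᵥ (H *ᵥ y))) ∧
  (∀ x y : Fin (2 * g + 1) → ℝ, (x ⬝ᵥ (A'.map (Int.cast : ℤ → ℝ) *ᵥ y)) ^ 2 ≤
    (2 * B : ℝ) ^ 2 * ((x ⬝ᵥ (H *ᵥ x)) * (y ⬝ᵥ (H *ᵥ y)))) ∧
  (∀ (v : Fin (2 * g + 1) → ℤ) (m : ℕ), |((form A A' m v : ℤ) : ℝ)| ≤
    (2 * B : ℝ) ^ m * ((fun i => (v i : ℝ)) ⬝ᵥ (H *ᵥ (fun i => (v i : ℝ))))) ∧
  (α = 1 → ∀ (v : Fin (2 * g + 1) → ℤ) (j : ℤ), (j : L) = ∑ i, (v i : L) * e i →
    (j : ℝ) ^ 2 ≤ (4 * B : ℝ) ^ (2 * g) *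
      ((fun i => (v i : ℝ)) ⬝ᵥ (H *ᵥ (fun i => (v i : ℝ)))))

/-- Formal properties of the Gram matrices. -/
def S_CHI : Prop := ∀ (g : ℕ) (L : Type) [Field L] [NumberField L] (f : ℤ[X]) (θ : L),
  ∀ hG : IsGen g f θ, ∀ (α : L) (e : Fin (2 * g + 1) → L) (A B : Mt g ℤ), α ≠ 0 →
  Lat hG α e A B → A.IsSymm ∧ B.IsSymm ∧ LinearIndependent ℚ e ∧ chp A B = f ∧
    (IsSquare (Algebra.norm ℚ α) → A.det = (-1) ^ g) ∧
    (∀ (m : ℕ) (ξ : Fin (2 * g + 1) → ℤ), ((form A B m ξ : ℤ) : ℚ) =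
      hG.top (θ ^ m * (∑ i, (ξ i : L) * e i) ^ 2 / α)) ∧
    ∀ U : Mt g ℤ, IsUnit U.det →
      Lat hG α (fun j => ∑ i, (U i j : L) * e i) (Uᵀ * A * U) (Uᵀ * B * U)

/-- No common isotropic subspaces in complementary position. -/
def S_GAP : Prop := ∀ (g : ℕ) (K : Type) [Field K] (A B : Mt g K), A.IsSymm → B.IsSymm →
  A.det ≠ 0 → Irreducible (chp A B) →
  ∀ i j : Fin (2 * g + 1), (i : ℕ) + j + 1 = 2 * g → ∃ a ≤ i, ∃ b ≤ j, A a b ≠ 0 ∨ B a b ≠ 0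

/-- A common isotropic subspace of dimension `g` gives a square. -/
def S_SQ : Prop := ∀ (g : ℕ) (L : Type) [Field L] [NumberField L] (f : ℤ[X]) (θ : L), 1 ≤ g →
  ∀ hG : IsGen g f θ, ∀ (α : L) (e : Fin (2 * g + 1) → L), α ≠ 0 → LinearIndependent ℚ e →
  (∀ i j : Fin (2 * g + 1), (i : ℕ) < g → (j : ℕ) < g → hG.top (e i * e j / α) = 0) →
  (∀ i j : Fin (2 * g + 1), (i : ℕ) < g → (j : ℕ) < g → hG.top (θ * (e i * e j) / α) = 0) →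
  IsSquare (Algebra.norm ℚ α) → IsSquare α

/-- From the lattice to a bad polynomial: `α` is not a square, or `α = 1` and the integers in the
lattice are large. -/
def S_LB : Prop := ∀ g : ℕ, 1 ≤ g → ∃ κ : ℕ, ∀ (L : Type) [Field L] [NumberField L] (f : ℤ[X])
  (θ : L) (B N : ℕ) (S : Finset ℕ) (h : ℕ → ℤ[X]), ∀ hG : IsGen g f θ, Ht g B f →
  2 ^ κ * B ≤ 4 ^ N → (∀ q ∈ S, Cg q f (X * h q)) →
  ∀ (α : L) (e : Fin (2 * g + 1) → L) (A A' : Mt g ℤ), α ≠ 0 → IsSquare (Algebra.norm ℚ α) →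
  Lat hG α e A A' → (∀ q ∈ S, DistMod q A A') →
  (¬ IsSquare α ∨ (α = 1 ∧ ∀ j : ℤ, (∃ v : Fin (2 * g + 1) → ℤ, (j : L) = ∑ i, (v i : L) * e i) →
    j = 0 ∨ (B : ℤ) ≤ j ^ 2)) → LBad g N κ S h f

/-! ### The distinguished lattice at a weakly divisible prime -/

/-- The neighbour of `ℤ[θ]`. -/
def S_NBR : Prop := ∀ (g P : ℕ) (L : Type) [Field L] [NumberField L] (f : ℤ[X]) (θ : L), 1 ≤ g →
  P.Prime → P ≠ 2 → ∀ hG : IsGen g f θ, Weak P f → ∃ (e : Fin (2 * g + 1) → L) (A B : Mt g ℤ),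
  Lat hG 1 e A B ∧ (∃ v : Fin (2 * g + 1) → ℤ, (P : L) = ∑ i, (v i : L) * e i) ∧
  ∀ j : ℤ, (∃ v : Fin (2 * g + 1) → ℤ, (j : L) = ∑ i, (v i : L) * e i) → (P : ℤ) ∣ j

/-- A polynomial of the family which is not bad has a squarefree discriminant. -/
def S_SQF : Prop := ∀ g : ℕ, 1 ≤ g → ∃ κ : ℕ, ∀ (B N W : ℕ) (f₁ : ℤ[X]) (S : Finset ℕ)
  (h : ℕ → ℤ[X]) (f : ℤ[X]), GoodF g W f₁ → GoodS g W S h → Fam g B W f₁ S h f →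
  2 ^ κ * B ≤ 4 ^ N → 1 ≤ B → ¬ LBad g N κ S h f → Squarefree (dsc g f)

/-! ### Ideals -/

/-- The ring of integers is `ℤ[θ]` (the discriminant is squarefree). -/
def S_INT : Prop := ∀ (g : ℕ) (L : Type) [Field L] [NumberField L] (f : ℤ[X]) (θ : L),
  IsGen g f θ → Squarefree (dsc g f) →
  ∀ x : L, IsIntegral ℤ x ↔ ∃ v : Fin (2 * g + 1) → ℤ, Crd g θ v x

/-- The ideal `I` with `I ^ 2 = α O`. -/
def S_SD : Prop := ∀ (g : ℕ) (L : Type) [Field L] [NumberField L] (f : ℤ[X]) (θ : L),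
  ∀ hG : IsGen g f θ, Squarefree (dsc g f) → ∀ α : L, α ≠ 0 →
  (∀ 𝔓 : HeightOneSpectrum (𝓞 L), Ev 𝔓 α) →
    ∃ (e : Fin (2 * g + 1) → L) (A B : Mt g ℤ), SDn g e α ∧ Lat hG α e A B

/-- Local squares give a distinguished vector modulo `q`. -/
def S_TV : Prop := ∀ (g W : ℕ) (L : Type) [Field L] [NumberField L] (f : ℤ[X]) (θ : L)
  (S : Finset ℕ) (h : ℕ → ℤ[X]), 1 ≤ g → ∀ hG : IsGen g f θ, Squarefree (dsc g f) →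
  GoodS g W S h → ∀ (α : L) (e : Fin (2 * g + 1) → L) (A B : Mt g ℤ), α ≠ 0 → SDn g e α →
  Lat hG α e A B → ∀ q ∈ S, Cg q f (X * h q) →
  (∀ 𝔓 : HeightOneSpectrum (𝓞 L), Ov q 𝔓 → Sq1 𝔓 α) → DistMod q A B

/-- The two primes over `q`. -/
def S_EXQ : Prop := ∀ (g W : ℕ) (L : Type) [Field L] [NumberField L] (f : ℤ[X]) (θ : L)
  (S : Finset ℕ) (h : ℕ → ℤ[X]), 1 ≤ g → IsGen g f θ → Squarefree (dsc g f) →
  GoodS g W S h → ∀ q ∈ S, Cg q f (X * h q) →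
  ∃ 𝔓₁ 𝔮 : HeightOneSpectrum (𝓞 L), Ov q 𝔓₁ ∧ Ov q 𝔮 ∧ 𝔓₁.valuation L θ < 1 ∧
    𝔮.valuation L θ = 1 ∧ 𝔓₁.valuation L (q : L) = WithZero.exp (-1 : ℤ) ∧
    𝔮.valuation L (q : L) = WithZero.exp (-1 : ℤ) ∧
    ∀ 𝔓 : HeightOneSpectrum (𝓞 L), Ov q 𝔓 → 𝔓 = 𝔓₁ ∨ 𝔓 = 𝔮

/-- Integers are squares at the big prime over `q` (its degree is even); the residue field. -/
def S_CSQ : Prop := ∀ (g W : ℕ) (L : Type) [Field L] [NumberField L] (f : ℤ[X]) (θ : L)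
  (S : Finset ℕ) (h : ℕ → ℤ[X]), 1 ≤ g → IsGen g f θ → Squarefree (dsc g f) →
  GoodS g W S h → ∀ q ∈ S, Cg q f (X * h q) →
  ∀ 𝔮 : HeightOneSpectrum (𝓞 L), Ov q 𝔮 → 𝔮.valuation L θ = 1 →
    (∀ c : ℤ, ¬ (q : ℤ) ∣ c → Sq1 𝔮 (c : L)) ∧ Nat.card (𝓞 L ⧸ 𝔮.asIdeal) = q ^ (2 * g)

/-- The parity at a prime of degree one from the norm. -/
def S_PAR : Prop := ∀ (g : ℕ) (L : Type) [Field L] [NumberField L] (f : ℤ[X]) (θ : L),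
  IsGen g f θ → Squarefree (dsc g f) →
  ∀ p : ℕ, p.Prime → ∀ (𝔓₀ : HeightOneSpectrum (𝓞 L)) (c : ℤ), Ov p 𝔓₀ →
    𝔓₀.valuation L (θ - (c : L)) < 1 → ∀ x : L, x ≠ 0 → IsSquare (Algebra.norm ℚ x) →
    (∀ 𝔓 : HeightOneSpectrum (𝓞 L), Ov p 𝔓 → 𝔓 ≠ 𝔓₀ → Ev 𝔓 x) → Ev 𝔓₀ x

/-- The parity at the prime of degree one over `q` from the norm. -/
def S_PARQ : Prop := ∀ (g W : ℕ) (L : Type) [Field L] [NumberField L] (f : ℤ[X]) (θ : L)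
  (S : Finset ℕ) (h : ℕ → ℤ[X]), 1 ≤ g → IsGen g f θ → Squarefree (dsc g f) →
  GoodS g W S h → ∀ q ∈ S, Cg q f (X * h q) → ∀ x : L, x ≠ 0 → IsSquare (Algebra.norm ℚ x) →
    ∀ 𝔓 : HeightOneSpectrum (𝓞 L), Ov q 𝔓 → 𝔓.valuation L θ < 1 → Ev 𝔓 x

/-- The square class at the prime of degree one over `q` from the norm. -/
def S_NS : Prop := ∀ (g W : ℕ) (L : Type) [Field L] [NumberField L] (f : ℤ[X]) (θ : L)
  (S : Finset ℕ) (h : ℕ → ℤ[X]), 1 ≤ g → IsGen g f θ → Squarefree (dsc g f) →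
  GoodS g W S h → ∀ q ∈ S, Cg q f (X * h q) → ∀ x : L, x ≠ 0 → IsSquare (Algebra.norm ℚ x) →
    (∀ 𝔓 : HeightOneSpectrum (𝓞 L), Ov q 𝔓 → 𝔓.valuation L θ < 1 → Ev 𝔓 x) →
    (∀ 𝔓 : HeightOneSpectrum (𝓞 L), Ov q 𝔓 → 𝔓.valuation L θ = 1 → Sq1 𝔓 x) →
    ∀ 𝔓 : HeightOneSpectrum (𝓞 L), Ov q 𝔓 → Sq1 𝔓 x

/-- The parity at `2`, which is inert. -/
def S_P2 : Prop := ∀ (g : ℕ) (L : Type) [Field L] [NumberField L] (f : ℤ[X]) (θ : L),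
  IsGen g f θ → Irreducible (rd 2 f) → ∀ x : L, x ≠ 0 → IsSquare (Algebra.norm ℚ x) →
    ∀ 𝔓 : HeightOneSpectrum (𝓞 L), Ov 2 𝔓 → Ev 𝔓 x

end Pool.Agent.N783.PQ
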