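import Pool.Agent.N783.PQ.Def
import Pool.Agent.N352.PJ.Cnt

/-!
# Statements on discriminants of integral polynomials (parts of `S_FAM`)

Project PQ (helper783). `pol`, `dis`, `Dy`, `D2` and the theorems on them are those of project PJ.
-/

set_option autoImplicit false
set_option linter.all false

open Polynomial
open scoped Classical

namespace Pool.Agent.N783.PQ

open Pool.Agent.N352.PJ (dd pol dis Dy D2)

/-- The coefficients of the polynomials of height at most `B`. -/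
def Bz (g B : ℕ) : Set (Fin (2 * g) → ℤ) :=
  {a | ∀ j, |a j| ≤ (B : ℤ) ^ (2 * g + 1 - (j : ℕ))}

/-- The coefficients of the polynomials of height at most `B` with given residues modulo `W`. -/
def Bx (g B W : ℕ) (A : Fin (2 * g) → ℤ) : Set (Fin (2 * g) → ℤ) :=
  {a | (∀ j, |a j| ≤ (B : ℤ) ^ (2 * g + 1 - (j : ℕ))) ∧ ∀ j, (W : ℤ) ∣ a j - A j}

/-- The size of the boxes. -/
def S_BX : Prop := ∀ (g B W : ℕ) (A : Fin (2 * g) → ℤ), 0 < W → W ≤ B →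
  (Bx g B W A).Finite ∧ B ^ dd g ≤ (Bx g B W A).ncard * W ^ (2 * g) ∧
  (Bx g B W A).ncard * W ^ (2 * g) ≤ 3 ^ (2 * g) * B ^ dd g

/-- The proportion of discriminants divisible by `P ^ 2`. -/
def S_LD : Prop := ∀ g P : ℕ, 1 ≤ g → P.Prime → 2 * g + 1 < P →
  {a : Fin (2 * g) → ℤ | (∀ j, 0 ≤ a j ∧ a j < P ^ 2) ∧ (P : ℤ) ^ 2 ∣ dis a}.ncard * P ^ 2 ≤
    (2 * g + 2 * g * (2 * g - 1) * (2 * g + 1)) * P ^ (4 * g)

/-- Few discriminants are divisible by the square of a medium prime. -/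
def S_SML : Prop := ∀ g : ℕ, 1 ≤ g → ∃ M : ℕ, ∀ (B W : ℕ) (A : Fin (2 * g) → ℤ), 0 < W → W ≤ B →
  4 * {a ∈ Bx g B W A | ∃ P : ℕ, P.Prime ∧ M < P ∧ P ^ 2 < B ∧ ¬ P ∣ W ∧
    (P : ℤ) ^ 2 ∣ dis a}.ncard ≤ (Bx g B W A).ncard

/-- Weakly divisible discriminants. -/
def S_WK : Prop := ∀ g P : ℕ, 1 ≤ g → P.Prime → 2 * g + 1 < P → ∀ a : Fin (2 * g) → ℤ,
  (P : ℤ) ^ 2 ∣ dis a → ¬ (P : ℤ) ∣ D2 a → Weak P (pol a)

/-- Few discriminants are strongly divisible by the square of a large prime. -/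
def S_STR : Prop := ∀ g : ℕ, 1 ≤ g → ∀ ε : ℝ, 0 < ε → ∃ B₀ : ℕ, ∀ B ≥ B₀,
  ({a ∈ Bz g B | ∃ P : ℕ, P.Prime ∧ B ≤ P ^ 2 ∧ (P : ℤ) ∣ dis a ∧ (P : ℤ) ∣ D2 a}.ncard : ℝ) ≤
    ε * (B : ℝ) ^ dd g

/-- The conditions at the small primes can be satisfied. -/
def S_GF : Prop := ∀ g M : ℕ, 1 ≤ g → ∃ (W : ℕ) (f₁ : ℤ[X]), GoodF g W f₁ ∧
  ∀ p : ℕ, p.Prime → p ≤ M → p ∣ W

/-- Discriminant and separability modulo `p`. -/
def S_DSC : Prop := ∀ (g p : ℕ) (f f' : ℤ[X]), 1 ≤ g → p.Prime → f.Monic → f.natDegree = 2 * g + 1 →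
  Cg p f f' → (rd p f').Separable → ¬ (p : ℤ) ∣ dsc g f

end Pool.Agent.N783.PQ
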