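import Pool.Agent.Y723.HJ.Map

/-!
# The Jacobian of `y² = f(x)` over `ℚ` and its Tate-Shafarevich group

`f = x ^ (2 g + 1) + a_(2 g - 1) x ^ (2 g - 1) + ... + a_0` with integers `a_i`. The curve `y² = f(x)`
has one point at infinity, which is rational. For an algebraically closed field `L` of
characteristic zero over which `f` has no multiple root the group of the points of the Jacobian over
`L` is the group of the divisor classes of degree zero of the projective curve, which is the class
group of the ring `CR f = L[x, y] / (y² - f(x))` of the functions that are regular outside of the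
point at infinity. (`CR`, `clmap`: files `Pool/Agent/Y723/HJ/Quad.lean`, `Map.lean`.)

Project PQ (helper783), after the library of Jacobians with rational Weierstrass points
(`Pool.Agent.Y723.HJ`).
-/

set_option autoImplicit false

namespace Pool.Agent.N783.PQ

open Polynomial
open Pool.Agent.Y723.HJ (CR OddM HF clmap)

/-- `f = x ^ (2 g + 1) + a_(2 g - 1) x ^ (2 g - 1) + ... + a_0` -/
noncomputable def pol {g : ℕ} (a : Fin (2 * g) → ℤ) : ℤ[X] :=
  X ^ (2 * g + 1) + ∑ i : Fin (2 * g), C (a i) * X ^ (i : ℕ)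

/-- `f` as a polynomial over the field `L` -/
noncomputable abbrev fol {g : ℕ} (a : Fin (2 * g) → ℤ) (L : Type) [Field L] : L[X] :=
  (pol a).map (Int.castRingHom L)

lemma sum_degree_lt {g : ℕ} (a : Fin (2 * g) → ℤ) :
    (∑ i : Fin (2 * g), C (a i) * X ^ (i : ℕ) : ℤ[X]).degree < ((2 * g + 1 : ℕ) : WithBot ℕ) := by
  refine lt_of_le_of_lt (Polynomial.degree_sum_le _ _) ?_
  rw [Finset.sup_lt_iff (by exact WithBot.bot_lt_coe _)]
  intro i _
  refine (degree_C_mul_X_pow_le _ _).trans_lt ?_
  have := i.2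
  exact_mod_cast (by omega : (i : ℕ) < 2 * g + 1)

lemma pol_monic {g : ℕ} (a : Fin (2 * g) → ℤ) : (pol a).Monic :=
  monic_X_pow_add (sum_degree_lt a)

lemma pol_natDegree {g : ℕ} (a : Fin (2 * g) → ℤ) : (pol a).natDegree = 2 * g + 1 := by
  unfold pol
  rw [natDegree_add_eq_left_of_degree_lt, natDegree_X_pow]
  rw [degree_X_pow]
  exact sum_degree_lt a

lemma fol_natDegree {g : ℕ} (a : Fin (2 * g) → ℤ) (L : Type) [Field L] :
    (fol a L).natDegree = 2 * g + 1 := by
  rw [(pol_monic a).natDegree_map, pol_natDegree]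

instance instOddM {g : ℕ} (a : Fin (2 * g) → ℤ) (L : Type) [Field L] : OddM (fol a L) where
  monic := (pol_monic a).map _
  odd := by rw [fol_natDegree]; exact ⟨g, rfl⟩

lemma fol_map {g : ℕ} (a : Fin (2 * g) → ℤ) {F L : Type} [Field F] [Field L] (φ : F →+* L) :
    (fol a F).map φ = fol a L := by
  rw [Polynomial.map_map]
  congr 1
  exact RingHom.ext_int _ _

/-- The points of the Jacobian of `y² = f(x)` over the algebraically closed field `L`: the class
group of the coordinate ring `L[x, y] / (y² - f(x))`, written additively. -/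
abbrev Jac {g : ℕ} (a : Fin (2 * g) → ℤ) (L : Type) [Field L] : Type :=
  Additive (ClassGroup (CR (fol a L)))

/-- the homomorphism of the groups of points given by a homomorphism of fields (extension of
ideals) -/
noncomputable def jmap {g : ℕ} (a : Fin (2 * g) → ℤ) {F L : Type} [Field F] [Field L]
    (φ : F →+* L) : Jac a F →+ Jac a L :=
  MonoidHom.toAdditive (clmap φ (fol_map a φ))

/-- the algebraic numbers -/
abbrev QB : Type := AlgebraicClosure ℚ

/-- the absolute Galois group of `ℚ` -/
abbrev GQ : Type := QB ≃ₐ[ℚ] QB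

variable {g : ℕ} (a : Fin (2 * g) → ℤ)

/-- the action of the Galois group on the points of the Jacobian -/
noncomputable def act (σ : GQ) : Jac a QB →+ Jac a QB := jmap a (σ : QB →+* QB)

/-- the points of the Jacobian over `ℚ` -/
noncomputable def JacQ : AddSubgroup (Jac a QB) where
  carrier := {P | ∀ σ : GQ, act a σ P = P}
  zero_mem' := fun σ => map_zero _
  add_mem' := fun {P Q} hP hQ σ => by rw [map_add, hP, hQ]
  neg_mem' := fun {P} hP σ => by rw [map_neg, hP]

/-- continuous (that is locally constant) 1-cocycles -/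
def IsCocycle (c : GQ → Jac a QB) : Prop :=
  IsLocallyConstant c ∧ ∀ σ τ, c (σ * τ) = c σ + act a σ (c τ)

/-- coboundaries `σ ↦ σ P - P` -/
def IsCoboundary (c : GQ → Jac a QB) : Prop := ∃ P, ∀ σ, c σ = act a σ P - P

/-- The restriction of the cocycle `c` to the absolute Galois group of the completion `K` of `ℚ`
(`K` is `ℚ_p` or `ℝ`) is a coboundary: for every embedding `ι` of the algebraic numbers in an
algebraic closure of `K` there is a point `P` over this algebraic closure with
`ι (c (τ|QB)) = τ P - P` for every automorphism `τ` of the algebraic closure over `K`. -/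
def LocallyTrivial (K : Type) [Field K] [Algebra ℚ K] (c : GQ → Jac a QB) : Prop :=
  ∀ ι : QB →ₐ[ℚ] AlgebraicClosure K, ∃ P : Jac a (AlgebraicClosure K),
    ∀ (τ : AlgebraicClosure K ≃ₐ[K] AlgebraicClosure K) (σ : GQ),
      (∀ x : QB, τ (ι x) = ι (σ x)) →
      jmap a (ι : QB →+* AlgebraicClosure K) (c σ) =
        jmap a (τ : AlgebraicClosure K →+* AlgebraicClosure K) P - P

/-- cocycles that are trivial at all places of `ℚ` -/
def IsShaCocycle (c : GQ → Jac a QB) : Prop :=
  IsCocycle a c ∧ (∀ (p : ℕ) [Fact p.Prime], LocallyTrivial a ℚ_[p] c) ∧ LocallyTrivial a ℝ c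

/-- the cocycles that are trivial at all places of `ℚ` -/
noncomputable def shaCocycles : AddSubgroup (GQ → Jac a QB) where
  carrier := {c | IsShaCocycle a c}
  zero_mem' := by
    refine ⟨⟨IsLocallyConstant.const _, fun σ τ => by simp⟩, ?_, ?_⟩
    · intro p _ ι
      exact ⟨0, fun τ σ _ => by simp⟩
    · intro ι
      exact ⟨0, fun τ σ _ => by simp⟩
  add_mem' := by
    rintro f g ⟨⟨hf1, hf2⟩, hf3, hf4⟩ ⟨⟨hg1, hg2⟩, hg3, hg4⟩
    refine ⟨⟨hf1.add hg1, fun σ τ => ?_⟩, ?_, ?_⟩
    · simp only [Pi.add_apply, hf2, hg2, map_add]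
      abel
    · intro p _ ι
      obtain ⟨P, hP⟩ := hf3 p ι
      obtain ⟨Q, hQ⟩ := hg3 p ι
      refine ⟨P + Q, fun τ σ h => ?_⟩
      simp only [Pi.add_apply, map_add, hP τ σ h, hQ τ σ h]
      abel
    · intro ι
      obtain ⟨P, hP⟩ := hf4 ι
      obtain ⟨Q, hQ⟩ := hg4 ι
      refine ⟨P + Q, fun τ σ h => ?_⟩
      simp only [Pi.add_apply, map_add, hP τ σ h, hQ τ σ h]
      abel
  neg_mem' := by
    rintro f ⟨⟨hf1, hf2⟩, hf3, hf4⟩
    refine ⟨⟨hf1.neg, fun σ τ => ?_⟩, ?_, ?_⟩
    · simp only [Pi.neg_apply, hf2, map_neg]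
      abel
    · intro p _ ι
      obtain ⟨P, hP⟩ := hf3 p ι
      refine ⟨-P, fun τ σ h => ?_⟩
      simp only [Pi.neg_apply, map_neg, hP τ σ h]
      abel
    · intro ι
      obtain ⟨P, hP⟩ := hf4 ι
      refine ⟨-P, fun τ σ h => ?_⟩
      simp only [Pi.neg_apply, map_neg, hP τ σ h]
      abel

/-- the coboundaries -/
noncomputable def coboundaries : AddSubgroup (GQ → Jac a QB) where
  carrier := {c | IsCoboundary a c}
  zero_mem' := ⟨0, fun σ => by simp⟩
  add_mem' := by
    rintro f g ⟨P, hP⟩ ⟨Q, hQ⟩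
    refine ⟨P + Q, fun σ => ?_⟩
    simp only [Pi.add_apply, map_add, hP, hQ]
    abel
  neg_mem' := by
    rintro f ⟨P, hP⟩
    refine ⟨-P, fun σ => ?_⟩
    simp only [Pi.neg_apply, map_neg, hP]
    abel

/-- The Tate-Shafarevich group of the Jacobian of `y² = f(x)` over `ℚ`: the cocycles that are
trivial at all places modulo the coboundaries. -/
abbrev Sha : Type := shaCocycles a ⧸ (coboundaries a).addSubgroupOf (shaCocycles a)

end Pool.Agent.N783.PQ
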