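import Pool.Agent.N783.PQ.Loc
import Pool.Agent.N783.PQ.JacDef
import Pool.Agent.Y723.HJ.Rt
import Pool.Agent.Y723.HJ.Kum

/-!
# From `SelZero f` to the Jacobian and its Tate-Shafarevich group: statements

Project PQ (helper783), part SH. The library `Pool.Agent.Y723.HJ` treats `f = ∏ (x - a i)` with
integers `a i`; here the roots of `f` are algebraic numbers, permuted by the Galois group.
-/

set_option autoImplicit false
set_option linter.all false

open Polynomial Ideal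
open scoped Classical

namespace Pool.Agent.N783.PQ

open Pool.Agent.Y723.HJ (CR OddM HF clmap mapR CC mi bar nm cl lead ev val del)

/-! ### Square roots of the values at the roots of `f` -/

/-- The square roots of the values of the norm of `I` (with sign) at the roots of `f`, attached to a
class `P` with `P ^ 2 = cl I`. (`Pool.Agent.Y723.HJ.Rt` is this for `f = pf r`, as a function of the
index of the root.) -/
def Rf {L : Type} [Field L] {f : L[X]} [HF f] (P : ClassGroup (CR f)) (I : Ideal (CR f))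
    (s : L → L) : Prop :=
  ∃ (J : Ideal (CR f)) (h : CR f), J ≠ ⊥ ∧ (∀ α, f.eval α = 0 → (nm J).eval α ≠ 0) ∧ cl J = P ∧
    h ≠ 0 ∧ J ^ 2 * bar I = span {h} ∧ ∀ α, f.eval α = 0 → s α = val α h / del α J

/-- The calculus of the square roots. -/
def S_RF : Prop := ∀ (L : Type) [Field L] [IsAlgClosed L] [CharZero L] (f : L[X]) [HF f],
  (∀ (P : ClassGroup (CR f)) (I : Ideal (CR f)), I ≠ ⊥ → cl I = P ^ 2 → ∃ s, Rf P I s) ∧
  (∀ (P : ClassGroup (CR f)) (I : Ideal (CR f)) (s s' : L → L), I ≠ ⊥ → Rf P I s → Rf P I s' →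
    ∀ α, f.eval α = 0 → s α = s' α) ∧
  (∀ (P P' : ClassGroup (CR f)) (I I' : Ideal (CR f)) (s s' : L → L), Rf P I s → Rf P' I' s' →
    Rf (P * P') (I * I') (fun α => s α * s' α)) ∧
  (∀ (P : ClassGroup (CR f)) (I : Ideal (CR f)) (s : L → L), I ≠ ⊥ → Rf P I s →
    ∀ α, f.eval α = 0 → s α ^ 2 = del α I) ∧
  (∀ (T : ClassGroup (CR f)) (s : L → L), Rf T ⊤ s → (∀ α, f.eval α = 0 → s α = 1) → T = 1)

/-- Functoriality of the square roots. -/
def S_RFM : Prop := ∀ (F L : Type) [Field F] [IsAlgClosed F] [CharZero F] [Field L] [CharZero L]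
  (f : F[X]) (f' : L[X]) [HF f] [HF f'] (φ : F →+* L) (h : f.map φ = f')
  (P : ClassGroup (CR f)) (I : Ideal (CR f)) (s : F → F) (s' : L → L), Rf P I s →
  (∀ α, f.eval α = 0 → s' (φ α) = φ (s α)) → Rf (clmap φ h P) (I.map (mapR φ h)) s'

/-- The signs of the classes of order two: their product is one, and all signs occur, up to a
common sign. -/
def S_TWO : Prop := ∀ (L : Type) [Field L] [IsAlgClosed L] [CharZero L] (f : L[X]) [HF f],
  (∀ (T : ClassGroup (CR f)) (s : L → L), T ^ 2 = 1 → Rf T ⊤ s →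
    ∏ α ∈ f.roots.toFinset, s α = 1) ∧
  (∀ ε : L → L, (∀ α, f.eval α = 0 → ε α = 1 ∨ ε α = -1) → ∃ (T : ClassGroup (CR f)) (c : L),
    T ^ 2 = 1 ∧ (c = 1 ∨ c = -1) ∧ Rf T ⊤ (fun α => c * ε α))

/-- Rational representatives of invariant classes, prime to `f`. -/
def S_RAT : Prop := ∀ (K : Type) [Field K] [CharZero K] (f : K[X])
  (f' : (AlgebraicClosure K)[X]) [HF f] [HF f'] (hf : f.map (algebraMap K (AlgebraicClosure K)) = f')
  (hτ : ∀ τ : AlgebraicClosure K ≃ₐ[K] AlgebraicClosure K,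
    f'.map (τ : AlgebraicClosure K →+* AlgebraicClosure K) = f')
  (P : ClassGroup (CR f')),
  (∀ τ : AlgebraicClosure K ≃ₐ[K] AlgebraicClosure K,
    clmap (τ : AlgebraicClosure K →+* AlgebraicClosure K) (hτ τ) P = P) →
  ∃ u v : K[X], u.Monic ∧ IsCoprime u f ∧ u ∣ f - v ^ 2 ∧
    cl (mi f' (u.map (algebraMap K (AlgebraicClosure K)))
      (v.map (algebraMap K (AlgebraicClosure K)))) = P

/-- Interpolation: an equivariant function on the roots is given by a polynomial. -/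
def S_ITP : Prop := ∀ (K Ω : Type) [Field K] [Field Ω] [Algebra K Ω] [IsGalois K Ω] (f : K[X]),
  f.Separable → (f.map (algebraMap K Ω)).Splits → ∀ w : Ω → Ω,
  (∀ (τ : Ω ≃ₐ[K] Ω) (α : Ω), aeval α f = 0 → τ (w α) = w (τ α)) →
  ∃ W : K[X], ∀ α : Ω, aeval α f = 0 → aeval α W = w α

/-- Kummer theory on the roots (Hilbert 90 for `ℚ[x] / f`). -/
def S_HIL : Prop := ∀ f : ℚ[X], Irreducible f → ∀ χ : GQ → QB → QB,
  (∀ (σ : GQ) (α : QB), aeval α f = 0 → χ σ α = 1 ∨ χ σ α = -1) →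
  (∀ (σ τ : GQ) (α : QB), aeval α f = 0 → χ (σ * τ) α = χ σ (τ α) * χ τ α) →
  (∀ α : QB, aeval α f = 0 → IsLocallyConstant fun σ => χ σ α) →
  ∃ b : QB → QB, (∀ α, aeval α f = 0 → b α ≠ 0) ∧
    ∀ (σ : GQ) (α : QB), aeval α f = 0 → σ (b α) = χ σ α * b (σ α)

/-- The local step: a class `P` whose translates under the Galois group differ from it by classes
`T τ` of order two, with signs given by the square roots `b α` of the `h(α)`. -/
def S_LCC : Prop := ∀ (K : Type) [Field K] [CharZero K] (f h : K[X])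
  (f' : (AlgebraicClosure K)[X]) [HF f] [HF f'] (hf : f.map (algebraMap K (AlgebraicClosure K)) = f')
  (hτ : ∀ τ : AlgebraicClosure K ≃ₐ[K] AlgebraicClosure K,
    f'.map (τ : AlgebraicClosure K →+* AlgebraicClosure K) = f')
  (P : ClassGroup (CR f'))
  (T : (AlgebraicClosure K ≃ₐ[K] AlgebraicClosure K) → ClassGroup (CR f'))
  (sg : (AlgebraicClosure K ≃ₐ[K] AlgebraicClosure K) → AlgebraicClosure K → AlgebraicClosure K)
  (b : AlgebraicClosure K → AlgebraicClosure K),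
  (∀ τ, T τ ^ 2 = 1) →
  (∀ τ : AlgebraicClosure K ≃ₐ[K] AlgebraicClosure K,
    clmap (τ : AlgebraicClosure K →+* AlgebraicClosure K) (hτ τ) P = P * T τ) →
  (∀ τ, Rf (T τ) ⊤ (sg τ)) →
  (∀ α, aeval α f = 0 → b α ^ 2 = aeval α h) →
  (∀ (τ : AlgebraicClosure K ≃ₐ[K] AlgebraicClosure K) (α : AlgebraicClosure K), aeval α f = 0 →
    τ (b α) = sg τ (τ α) * b (τ α)) →
  LocIm K f h

/-- Locally trivial cocycles with values in the points of order two are coboundaries of points of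
order two, if there is no 2-Selmer group. -/
def S_REP : Prop := ∀ (g : ℕ) (a : Fin (2 * g) → ℤ), Irreducible (fol a ℚ) → SelZero (pol a) →
  ∀ c : GQ → Jac a QB, IsShaCocycle a c → (∀ σ, c σ + c σ = 0) →
    ∃ T : Jac a QB, T + T = 0 ∧ ∀ σ, c σ = act a σ T - T

/-- No element of order two in the Tate-Shafarevich group, and multiplication by two is bijective on
the group of the rational points. -/
def S_SHA : Prop := ∀ (g : ℕ) (a : Fin (2 * g) → ℤ), Irreducible (fol a ℚ) → SelZero (pol a) →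
  (∀ c : Sha a, 2 • c = 0 → c = 0) ∧ (∀ P : JacQ a, 2 • P = 0 → P = 0) ∧
    (∀ P : JacQ a, ∃ Q : JacQ a, 2 • Q = P)

/-- The main theorem in terms of the coefficients. -/
def S_FIN : Prop := ∀ g : ℕ, 1 ≤ g → ∃ c : ℝ, 0 < c ∧ ∃ B₀ : ℕ, ∀ B ≥ B₀,
  {a : Fin (2 * g) → ℤ | ∀ i, |a i| ≤ (B : ℤ) ^ (2 * g + 1 - (i : ℕ))}.Finite ∧
  c * ({a : Fin (2 * g) → ℤ | ∀ i, |a i| ≤ (B : ℤ) ^ (2 * g + 1 - (i : ℕ))}.ncard : ℝ) ≤
    ({a : Fin (2 * g) → ℤ | (∀ i, |a i| ≤ (B : ℤ) ^ (2 * g + 1 - (i : ℕ))) ∧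
      Irreducible (fol a ℚ) ∧ SelZero (pol a) ∧ (∀ c : Sha a, 2 • c = 0 → c = 0) ∧
      (∀ P : JacQ a, 2 • P = 0 → P = 0) ∧ (∀ P : JacQ a, ∃ Q : JacQ a, 2 • Q = P)}.ncard : ℝ)

end Pool.Agent.N783.PQ
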