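import Pool.Agent.N783.PQ.FinalA
import Pool.Agent.N783.PQ.Sha
import Pool.Agent.N644.PQ.Hun
import Pool.Agent.N507.PQ.Hq
import Pool.Agent.N383.PQ.SH1
import Pool.Agent.N262.PQ.Two
import Pool.Agent.N776.PQ.Rat
import Pool.Agent.N216.PQ.Sh4
import Pool.Agent.N595.PQ.LCC
import Pool.Agent.N490.PQ.Rep
import Pool.Agent.N896.PQ.Sh7
import Pool.Agent.N42.PQ.Fin

/-!
# Assembly of project PQ (helper783)
-/

set_option autoImplicit false

namespace Pool.Agent.N783.PQ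

theorem hun : S_HUN := Pool.Agent.N644.PQ.Hun.hun int
theorem hq : S_HQ := Pool.Agent.N507.PQ.hq int exq hun

theorem main' : S_MAIN := main hun hq

theorem rep : S_REP :=
  Pool.Agent.N490.PQ.rep Pool.Agent.N383.PQ.rf Pool.Agent.N383.PQ.rfm
    (Pool.Agent.N262.PQ.two Pool.Agent.N383.PQ.rf) Pool.Agent.N216.PQ.itp Pool.Agent.N216.PQ.hil
    (Pool.Agent.N595.PQ.lcc Pool.Agent.N383.PQ.rf Pool.Agent.N383.PQ.rfm Pool.Agent.N776.PQ.rat
      Pool.Agent.N216.PQ.itp)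

theorem sha : S_SHA :=
  Pool.Agent.N896.PQ.sha rep Pool.Agent.N383.PQ.rf Pool.Agent.N383.PQ.rfm
    (Pool.Agent.N262.PQ.two Pool.Agent.N383.PQ.rf)

theorem final : S_FIN := Pool.Agent.N42.PQ.fin main' sha

end Pool.Agent.N783.PQ
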