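import Pool.Agent.N783.PQ.Lat
import Pool.Agent.N783.PQ.Cnt
import Pool.Agent.N202.M4.Stm

/-!
# Statements of the local parts, of the reciprocity law and of the main theorem

Project PQ (helper783).
-/

set_option autoImplicit false
set_option linter.all false

open Polynomial IsDedekindDomain Matrix NumberField WithZero
open scoped Classical

namespace Pool.Agent.N783.PQ

open Pool.Agent.N352.PJ (Mt Typ dd)
open Pool.Agent.N874.PP (Ev Sq1 U0)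
open Pool.Agent.N202.M4 (hasse hil)

/-! ### The local conditions -/

/-- The class of `h(Θ)`, `f(Θ) = 0`, comes from a point of the Jacobian of `y ^ 2 = f(x)` over the
field `F`: up to squares it is a product of elements `(-1) ^ deg u * u(Θ)` with `u ∣ v ^ 2 - f`,
the images of the divisors of points with `u(x) = 0`, `y = v(x)`. -/
def LocIm (F : Type) [Field F] (f h : F[X]) : Prop :=
  ∃ (l : List (F[X] × F[X])) (s : F[X]),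
    (∀ p ∈ l, p.1.Monic ∧ IsCoprime p.1 f ∧ p.1 ∣ p.2 ^ 2 - f) ∧
    f ∣ h * (l.map fun p => (-1) ^ p.1.natDegree * p.1).prod - s ^ 2

/-- The polynomial `f` over a field of characteristic zero. -/
noncomputable abbrev ov (F : Type) [Field F] (f : ℤ[X]) : F[X] := f.map (Int.castRingHom F)

/-- A rational polynomial over a field of characteristic zero. -/
noncomputable abbrev oq (F : Type) [Field F] [CharZero F] (h : ℚ[X]) : F[X] :=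
  h.map (Rat.castHom F)

/-- The 2-Selmer group over `ℚ` of the Jacobian of `y ^ 2 = f(x)` is zero. -/
def SelZero (f : ℤ[X]) : Prop :=
  ∀ h : ℚ[X], IsCoprime h (ov ℚ f) → IsSquare (Algebra.norm ℚ (AdjoinRoot.mk (ov ℚ f) h)) →
    (∀ (p : ℕ) [Fact p.Prime], LocIm ℚ_[p] (ov ℚ_[p] f) (oq ℚ_[p] h)) →
    LocIm ℝ (ov ℝ f) (oq ℝ h) → ∃ s : ℚ[X], ov ℚ f ∣ h - s ^ 2

/-- One divisor suffices (composition). -/
def S_CANT : Prop := ∀ (F : Type) [Field F] [CharZero F] (g : ℕ) (f h : F[X]), f.Monic →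
  f.natDegree = 2 * g + 1 → LocIm F f h → ∃ u v s : F[X], u.Monic ∧ IsCoprime u f ∧
    u ∣ v ^ 2 - f ∧ f ∣ h * ((-1) ^ u.natDegree * u) - s ^ 2

/-- The coefficient of `x ^ (2 g)` of the remainder modulo `f`. -/
noncomputable def tp {F : Type} [Field F] (g : ℕ) (f P : F[X]) : F := (P %ₘ f).coeff (2 * g)

/-- The form of a class in the image of the Jacobian has a Lagrangian. -/
def S_SPL : Prop := ∀ (F : Type) [Field F] [CharZero F] (g : ℕ) (f u v : F[X]), f.Monic →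
  f.natDegree = 2 * g + 1 → u.Monic → IsCoprime u f → u ∣ v ^ 2 - f →
  ∃ z : Fin g → F[X], (∀ i j, tp g f ((-1) ^ u.natDegree * u * z i * z j) = 0) ∧
    ∀ c : Fin g → F, f ∣ ∑ i, C (c i) * z i → c = 0

/-- The Gram matrix of the form `h(θ) x y`. -/
noncomputable def Gm {F : Type} [Field F] (g : ℕ) (f h : F[X]) : Mt g F :=
  Matrix.of fun i j => tp g f (h * X ^ ((i : ℕ) + j))

/-- The entries of the standard form. -/
def sg {F : Type} [Field F] (g : ℕ) (i : Fin (2 * g + 1)) : F :=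
  if (i : ℕ) < 2 * g then (-1) ^ (i : ℕ) else 1

/-- The form `G` has a diagonal form with Hasse invariant `ε` times that of the standard form. -/
def HasInv {F : Type} [Field F] {g : ℕ} (G : Mt g F) (ε : ℤ) : Prop :=
  ∃ (a : Fin (2 * g + 1) → F) (T : Mt g F), (∀ i, a i ≠ 0) ∧
    T * Matrix.diagonal a * Tᵀ = G ∧
    hasse (hil F) (List.ofFn a) = ε * hasse (hil F) (List.ofFn (sg g : Fin (2 * g + 1) → F))

/-- A form with a Lagrangian is the standard form. -/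
def S_HSP : Prop := ∀ (F : Type) [Field F] [CharZero F] (g : ℕ) (G : Mt g F), G.IsSymm →
  IsSquare ((-1) ^ g * G.det) → G.det ≠ 0 →
  (∃ z : Fin g → Fin (2 * g + 1) → F, LinearIndependent F z ∧
    ∀ i j, z i ⬝ᵥ (G *ᵥ z j) = 0) →
  ∃ T : Mt g F, T * Matrix.diagonal (sg g) * Tᵀ = G

/-- Classes in the image of the Jacobian have trivial invariant. -/
def S_HIM : Prop := ∀ (F : Type) [Field F] [CharZero F] (g : ℕ) (f h : F[X]), f.Monic →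
  f.natDegree = 2 * g + 1 → IsCoprime h f →
  IsSquare (Algebra.norm F (AdjoinRoot.mk f h)) → LocIm F f h → HasInv (Gm g f h) 1

/-- Unramified classes at odd primes have trivial invariant. -/
def S_HUN : Prop := ∀ (g : ℕ) (L : Type) [Field L] [NumberField L] (f : ℤ[X]) (θ : L),
  1 ≤ g → IsGen g f θ → Squarefree (dsc g f) → ∀ (p : ℕ) [Fact p.Prime], p ≠ 2 →
  ∀ h : ℚ[X], aeval θ h ≠ 0 → IsSquare (Algebra.norm ℚ (aeval θ h)) →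
  (∀ 𝔓 : HeightOneSpectrum (𝓞 L), Ov p 𝔓 → Ev 𝔓 (aeval θ h)) →
  HasInv (Gm g (ov ℚ_[p] f) (oq ℚ_[p] h)) 1

/-- The invariant at `q` in `S`. -/
def S_HQ : Prop := ∀ (g W : ℕ) (L : Type) [Field L] [NumberField L] (f : ℤ[X]) (θ : L)
  (S : Finset ℕ) (r : ℕ → ℤ[X]), 1 ≤ g → IsGen g f θ → Squarefree (dsc g f) →
  GoodS g W S r → ∀ q ∈ S, ∀ [Fact q.Prime], Cg q f (X * r q) →
  ∀ 𝔮 : HeightOneSpectrum (𝓞 L), Ov q 𝔮 → 𝔮.valuation L θ = 1 →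
  ∀ h : ℚ[X], aeval θ h ≠ 0 → IsSquare (Algebra.norm ℚ (aeval θ h)) →
  (∀ 𝔓 : HeightOneSpectrum (𝓞 L), Ov q 𝔓 → 𝔓 ≠ 𝔮 → Ev 𝔓 (aeval θ h)) →
  HasInv (Gm g (ov ℚ_[q] f) (oq ℚ_[q] h))
    (if ¬ Ev 𝔮 (aeval θ h) ∧ ¬ Sq1 𝔮 (aeval θ h * (q * θ)) then -1 else 1)

/-- The product formula for Hasse invariants of rational diagonal forms. -/
def S_PRD : Prop := ∀ (n : ℕ) (a b : Fin n → ℚ), (∀ i, a i ≠ 0) → (∀ i, b i ≠ 0) →
  ∀ S : Finset ℕ, (∀ q ∈ S, q.Prime) →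
  hasse (hil ℝ) (List.ofFn fun i => (a i : ℝ)) = hasse (hil ℝ) (List.ofFn fun i => (b i : ℝ)) →
  (∀ (p : ℕ) [Fact p.Prime], p ∉ S → hasse (hil ℚ_[p]) (List.ofFn fun i => (a i : ℚ_[p])) =
    hasse (hil ℚ_[p]) (List.ofFn fun i => (b i : ℚ_[p]))) →
  ∀ ε : ℕ → ℤ, (∀ q ∈ S, ε q = 1 ∨ ε q = -1) →
  (∀ q ∈ S, ∀ [Fact q.Prime], hasse (hil ℚ_[q]) (List.ofFn fun i => (a i : ℚ_[q])) =
    ε q * hasse (hil ℚ_[q]) (List.ofFn fun i => (b i : ℚ_[q]))) →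
  Even (S.filter fun q => ε q = -1).card

/-- The reciprocity law. -/
def S_REC : Prop := ∀ (g W : ℕ) (L : Type) [Field L] [NumberField L] (f : ℤ[X]) (θ : L)
  (S : Finset ℕ) (r : ℕ → ℤ[X]), 1 ≤ g → IsGen g f θ → Squarefree (dsc g f) →
  GoodS g W S r → (∀ q ∈ S, Cg q f (X * r q)) →
  ∀ 𝔮 : ℕ → HeightOneSpectrum (𝓞 L), (∀ q ∈ S, Ov q (𝔮 q) ∧ (𝔮 q).valuation L θ = 1) →
  ∀ h : ℚ[X], aeval θ h ≠ 0 → IsSquare (Algebra.norm ℚ (aeval θ h)) →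
    (∀ 𝔓 : HeightOneSpectrum (𝓞 L), (∀ q ∈ S, 𝔓 ≠ 𝔮 q) → Ev 𝔓 (aeval θ h)) →
    LocIm ℚ_[2] (ov ℚ_[2] f) (oq ℚ_[2] h) → LocIm ℝ (ov ℝ f) (oq ℝ h) →
    Even (S.filter fun q => ¬ Ev (𝔮 q) (aeval θ h) ∧
      ¬ Sq1 (𝔮 q) (aeval θ h * ((q : L) * θ))).card

/-! ### The local images -/

/-- The map between completions. -/
def S_CPL : Prop := ∀ (L : Type) [Field L] [NumberField L] (p : ℕ) [Fact p.Prime]
  (𝔓 : HeightOneSpectrum (𝓞 L)), Ov p 𝔓 →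
  ∃ ι : ℚ_[p] →+* 𝔓.adicCompletion L,
    (∀ x : ℚ, ι (x : ℚ_[p]) = algebraMap L (𝔓.adicCompletion L) (x : L)) ∧
    (∀ x : ℚ_[p], ‖x‖ ≤ 1 → Valued.v (Γ₀ := WithZero (Multiplicative ℤ)) (ι x) ≤ 1) ∧
    (∀ x : ℚ_[p], ‖x‖ < 1 → Valued.v (Γ₀ := WithZero (Multiplicative ℤ)) (ι x) < 1)

/-- Odd primes not dividing `D`: even valuations. -/
def S_LOC1 : Prop := ∀ (g : ℕ) (L : Type) [Field L] [NumberField L] (f : ℤ[X]) (θ : L),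
  1 ≤ g → IsGen g f θ → Squarefree (dsc g f) → ∀ (p : ℕ) [Fact p.Prime], p ≠ 2 →
  ∀ (D : ℕ) (h : ℚ[X]), ¬ p ∣ D → aeval ((D : L) * θ) h ≠ 0 →
    IsSquare (Algebra.norm ℚ (aeval ((D : L) * θ) h)) →
    LocIm ℚ_[p] (ov ℚ_[p] (f.scaleRoots (D : ℤ))) (oq ℚ_[p] h) →
    ∀ 𝔓 : HeightOneSpectrum (𝓞 L), Ov p 𝔓 → Ev 𝔓 (aeval ((D : L) * θ) h)

/-- Primes `q` dividing `D`. -/
def S_LOC2 : Prop := ∀ (g W : ℕ) (L : Type) [Field L] [NumberField L] (f : ℤ[X]) (θ : L)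
  (S : Finset ℕ) (r : ℕ → ℤ[X]), 1 ≤ g → IsGen g f θ → Squarefree (dsc g f) →
  GoodS g W S r → ∀ q ∈ S, ∀ [Fact q.Prime], Cg q f (X * r q) →
  ∀ (D' : ℕ) (h : ℚ[X]), ¬ q ∣ D' → aeval (((q * D' : ℕ) : L) * θ) h ≠ 0 →
    LocIm ℚ_[q] (ov ℚ_[q] (f.scaleRoots ((q * D' : ℕ) : ℤ))) (oq ℚ_[q] h) →
    ∀ 𝔮 : HeightOneSpectrum (𝓞 L), Ov q 𝔮 → 𝔮.valuation L θ = 1 →
      U0 𝔮 ((q : L) * θ) (aeval (((q * D' : ℕ) : L) * θ) h)

/-- Twists by squares. -/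
def S_SQT : Prop := ∀ (F : Type) [Field F] [CharZero F] (g : ℕ) (f h : F[X]) (δ : F), f.Monic →
  f.natDegree = 2 * g + 1 → δ ≠ 0 → LocIm F (f.scaleRoots (δ ^ 2)) h →
  LocIm F f (h.comp (C (δ ^ 2) * X))

/-- The classes at a prime over an odd prime form a group of order four. -/
def S_CLS : Prop := ∀ (L : Type) [Field L] [NumberField L] (p : ℕ) (𝔓 : HeightOneSpectrum (𝓞 L))
  (ϖ : L), p.Prime → p ≠ 2 → Ov p 𝔓 → ϖ ≠ 0 → ¬ Ev 𝔓 ϖ → ∀ x y : L, x ≠ 0 → y ≠ 0 →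
    (Ev 𝔓 (x * y) ↔ (Ev 𝔓 x ↔ Ev 𝔓 y)) ∧ (U0 𝔓 ϖ (x * y) ↔ (U0 𝔓 ϖ x ↔ U0 𝔓 ϖ y))

/-! ### The main theorem -/

/-- From the absence of strict classes to a twist without 2-Selmer group. -/
def S_TW : Prop := ∀ g : ℕ, 1 ≤ g → ∃ κ : ℕ, ∀ (B N W : ℕ) (f₁ : ℤ[X]) (S : Finset ℕ)
  (h : ℕ → ℤ[X]) (f : ℤ[X]), GoodF g W f₁ → GoodS g W S h → Fam g B W f₁ S h f →
  2 ^ κ * B ≤ 4 ^ N → 1 ≤ B → ¬ LBad g N κ S h f →
  ∃ J ⊆ S, Irreducible (ov ℚ (f.scaleRoots ((∏ q ∈ J, q : ℕ) : ℤ))) ∧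
    SelZero (f.scaleRoots ((∏ q ∈ J, q : ℕ) : ℤ))

/-- A positive proportion. -/
def S_MAIN : Prop := ∀ g : ℕ, 1 ≤ g → ∃ c : ℝ, 0 < c ∧ ∃ B₀ : ℕ, ∀ B ≥ B₀,
  {f : ℤ[X] | Ht g B f}.Finite ∧ c * ({f : ℤ[X] | Ht g B f}.ncard : ℝ) ≤
    ({f : ℤ[X] | Ht g B f ∧ Irreducible (ov ℚ f) ∧ SelZero f}.ncard : ℝ)

end Pool.Agent.N783.PQ
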