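import Pool.Agent.N783.PQ.ShaDef
import Pool.Agent.Y723.SJ.Cmp

/-! Comparison of the two copies of the definitions (after `Pool.Agent.Y723.SJ.Cmp`). -/

set_option autoImplicit false

namespace Pool.Agent.N783.PQ.SD

open Polynomial
open Pool.Agent.Y723.SJ (resE quoE)

variable {g : ℕ} (a : Fin (2 * g) → ℤ)

/-- the identity -/
noncomputable def eJ (L : Type) [Field L] : Pool.Agent.N783.PQ.Jac a L ≃+ Jac a L where
  toFun x := x
  invFun x := x
  left_inv _ := rfl
  right_inv _ := rfl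
  map_add' _ _ := rfl

lemma eJ_map {F L : Type} [Field F] [Field L] (φ : F →+* L) (x : Pool.Agent.N783.PQ.Jac a F) :
    eJ a L (Pool.Agent.N783.PQ.jmap a φ x) = pointMap a φ (eJ a F x) := rfl

/-- functions with values in the points -/
noncomputable def eF : (GQ → Pool.Agent.N783.PQ.Jac a QB) ≃+ (GQ → Jac a QB) :=
  AddEquiv.piCongrRight (fun _ => eJ a QB)

lemma eF_apply (f : GQ → Pool.Agent.N783.PQ.Jac a QB) (σ : GQ) : eF a f σ = eJ a QB (f σ) := rfl

lemma act_eq (σ : GQ) (P : Pool.Agent.N783.PQ.Jac a QB) :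
    eJ a QB (Pool.Agent.N783.PQ.act a σ P) = act a σ (eJ a QB P) := eJ_map a _ P

lemma coc_iff (f : GQ → Pool.Agent.N783.PQ.Jac a QB) :
    Pool.Agent.N783.PQ.IsCocycle a f ↔ IsCocycle a (eF a f) := by
  unfold Pool.Agent.N783.PQ.IsCocycle IsCocycle
  refine and_congr ?_ ?_
  · constructor
    · intro h
      exact h.comp (eJ a QB)
    · intro h
      have h1 := h.comp (eJ a QB).symm
      have h2 : (eJ a QB).symm ∘ (eF a f) = f := by
        funext σ
        exact (eJ a QB).symm_apply_apply _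
      rwa [h2] at h1
  · refine forall_congr' fun σ => forall_congr' fun τ => ?_
    rw [eF_apply, eF_apply, eF_apply, ← act_eq, ← map_add]
    exact (eJ a QB).injective.eq_iff.symm

lemma cob_iff (f : GQ → Pool.Agent.N783.PQ.Jac a QB) :
    Pool.Agent.N783.PQ.IsCoboundary a f ↔ IsCoboundary a (eF a f) := by
  unfold Pool.Agent.N783.PQ.IsCoboundary IsCoboundary
  constructor
  · rintro ⟨P, hP⟩
    refine ⟨eJ a QB P, fun σ => ?_⟩
    rw [eF_apply, hP, map_sub, act_eq]
  · rintro ⟨P, hP⟩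
    refine ⟨(eJ a QB).symm P, fun σ => ?_⟩
    apply (eJ a QB).injective
    rw [map_sub, act_eq, AddEquiv.apply_symm_apply, ← hP, eF_apply]

lemma loc_iff (K : Type) [Field K] [Algebra ℚ K] (f : GQ → Pool.Agent.N783.PQ.Jac a QB) :
    Pool.Agent.N783.PQ.LocallyTrivial a K f ↔ LocallyTrivial a K (eF a f) := by
  unfold Pool.Agent.N783.PQ.LocallyTrivial LocallyTrivial
  refine forall_congr' fun ι => ?_
  constructor
  · rintro ⟨P, hP⟩
    refine ⟨eJ a _ P, fun τ σ h => ?_⟩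
    rw [eF_apply, ← eJ_map, hP τ σ h, map_sub, eJ_map]
  · rintro ⟨P, hP⟩
    refine ⟨(eJ a _).symm P, fun τ σ h => ?_⟩
    apply (eJ a _).injective
    rw [eJ_map, map_sub, eJ_map, AddEquiv.apply_symm_apply, ← hP τ σ h, eF_apply]

lemma sha_iff (f : GQ → Pool.Agent.N783.PQ.Jac a QB) :
    f ∈ Pool.Agent.N783.PQ.shaCocycles a ↔ eF a f ∈ shaCocycles a := by
  show Pool.Agent.N783.PQ.IsShaCocycle a f ↔ IsShaCocycle a (eF a f)
  unfold Pool.Agent.N783.PQ.IsShaCocycle IsShaCocycle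
  refine and_congr (coc_iff a f) (and_congr ?_ (loc_iff a ℝ f))
  exact forall_congr' fun p => forall_congr' fun _ => loc_iff a ℚ_[p] f

/-- the two Tate-Shafarevich groups -/
noncomputable def eS : Pool.Agent.N783.PQ.Sha a ≃+ Sha a :=
  quoE (eF a) (sha_iff a) (cob_iff a)

lemma jacQ_iff (P : Pool.Agent.N783.PQ.Jac a QB) :
    P ∈ Pool.Agent.N783.PQ.JacQ a ↔ eJ a QB P ∈ JacQ a := by
  show (∀ σ : GQ, Pool.Agent.N783.PQ.act a σ P = P) ↔ ∀ σ : GQ, act a σ (eJ a QB P) = eJ a QB P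
  refine forall_congr' fun σ => ?_
  rw [← act_eq]
  exact (eJ a QB).injective.eq_iff.symm

/-- the two groups of rational points -/
noncomputable def eQ : Pool.Agent.N783.PQ.JacQ a ≃+ JacQ a := resE (eJ a QB) (jacQ_iff a)


end Pool.Agent.N783.PQ.SD
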