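import Pool.Agent.N352.PJ.Def

/-!
# A positive proportion of all odd hyperelliptic Jacobians over `ℚ`: definitions, counting

Project PQ (helper783), the version over `ℚ` of the projects PP (helper874) and PJ (helper352).
`g` is the genus, `n = 2 g + 1` the degree of `f`. The theorems `S_..` are the parts.
-/

set_option autoImplicit false
set_option linter.all false

open Polynomial Matrix
open scoped Classical

namespace Pool.Agent.N783.PQ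

open Pool.Agent.N352.PJ (Mt Typ dd)

/-! ### Polynomials -/

/-- The discriminant of `f` (up to sign), a polynomial of degree `2 g + 1`. -/
noncomputable def dsc (g : ℕ) (f : ℤ[X]) : ℤ := f.resultant (derivative f) (2 * g + 1) (2 * g)

/-- Congruence of polynomials modulo `q`. -/
def Cg (q : ℤ) (f f' : ℤ[X]) : Prop := ∀ j, q ∣ f.coeff j - f'.coeff j

/-- Reduction modulo `q`. -/
noncomputable abbrev rd (q : ℕ) (f : ℤ[X]) : (ZMod q)[X] := f.map (Int.castRingHom (ZMod q))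

/-- All monic polynomials of degree `2 g + 1` without term of degree `2 g` and of height at most
`B`. -/
structure Ht (g B : ℕ) (f : ℤ[X]) : Prop where
  mon : f.Monic
  deg : f.natDegree = 2 * g + 1
  tr : f.coeff (2 * g) = 0
  ht : ∀ j ≤ 2 * g, |f.coeff j| ≤ (B : ℤ) ^ (2 * g + 1 - j)

/-- The set `S` of primes and the polynomials `h q` of degree `2 g`, irreducible modulo `q`. -/
def GoodS (g W : ℕ) (S : Finset ℕ) (h : ℕ → ℤ[X]) : Prop :=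
  ∀ q ∈ S, q.Prime ∧ W < q ∧ 2 * g + 1 < q ∧ q % 8 = 1 ∧ (h q).Monic ∧
    (h q).natDegree = 2 * g ∧ (h q).coeff (2 * g - 1) = 0 ∧ Irreducible (rd q (h q))

/-- The conditions at the small primes. -/
structure GoodF (g W : ℕ) (f₁ : ℤ[X]) : Prop where
  mon : f₁.Monic
  deg : f₁.natDegree = 2 * g + 1
  tr : f₁.coeff (2 * g) = 0
  pos : 0 < W
  two : 2 ∣ W
  irr : Irreducible (rd 2 f₁)
  sep : ∀ p : ℕ, p.Prime → p ∣ W → (rd p f₁).Separable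

/-- `f` is weakly divisible by `P ^ 2`. -/
def Weak (P : ℕ) (f : ℤ[X]) : Prop := ∃ c : ℤ, (P : ℤ) ^ 2 ∣ f.eval c ∧ (P : ℤ) ∣ (derivative f).eval c

/-- The family. -/
structure Fam (g B W : ℕ) (f₁ : ℤ[X]) (S : Finset ℕ) (h : ℕ → ℤ[X]) (f : ℤ[X]) : Prop where
  ht : Ht g B f
  one : Cg W f f₁
  con : ∀ q ∈ S, Cg q f (X * h q)
  wk : ∀ P : ℕ, P.Prime → (P : ℤ) ^ 2 ∣ dsc g f → B ≤ P ^ 2 ∧ Weak P f

/-! ### Pairs of symmetric matrices -/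

section mats

variable {g : ℕ} {R : Type} [CommRing R]

/-- The characteristic polynomial of the self-adjoint operator `A⁻¹ B`. -/
noncomputable def chp (A B : Mt g R) : R[X] := (A⁻¹ * B).charpoly

/-- The value `(x, A (A⁻¹ B) ^ m x)`. -/
noncomputable def form (A B : Mt g R) (m : ℕ) (ξ : Fin (2 * g + 1) → R) : R :=
  ξ ⬝ᵥ ((A * (A⁻¹ * B) ^ m) *ᵥ ξ)

/-- The pair is distinguished. -/
def Dist (A B : Mt g R) : Prop :=
  ∃ ξ : Fin (2 * g + 1) → R, ∀ m ≤ 2 * g, form A B m ξ = if m = 2 * g then 1 else 0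

end mats

/-- The pair is distinguished modulo `q`. -/
def DistMod {g : ℕ} (q : ℤ) (A B : Mt g ℤ) : Prop :=
  ∃ (ξ : Fin (2 * g + 1) → ℤ) (s : ℤ), ¬ q ∣ s ∧
    ∀ m ≤ 2 * g, q ∣ form A B m ξ - if m = 2 * g then s ^ 2 else 0

/-- The gaps of the type are bounded. -/
def Gap (g N : ℕ) (w : Fin (2 * g + 1) → ℤ) : Prop :=
  ∀ i j : Fin (2 * g + 1), (j : ℕ) = i + 1 → w j - w i ≤ 2 * N

/-- The middle gap is small. -/
def Mid (g N : ℕ) (w : Fin (2 * g + 1) → ℤ) : Prop :=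
  ∀ i : Fin (2 * g + 1), (i : ℕ) + 1 = g → - w i ≤ N

/-- The type is not the one of `ℤ[θ]`. -/
def Deep (g N c : ℕ) (w : Fin (2 * g + 1) → ℤ) : Prop :=
  -((2 * g : ℤ) - 1) * N - c ≤ w 0

/-- Pairs of symmetric matrices in a box. -/
structure Box (g N c : ℕ) (w : Fin (2 * g + 1) → ℤ) (A B : Mt g ℤ) : Prop where
  sA : A.IsSymm
  sB : B.IsSymm
  det : A.det = (-1) ^ g
  tr : (A⁻¹ * B).trace = 0
  bA : ∀ i j, ((|A i j| : ℤ) : ℝ) ≤ (2 : ℝ) ^ ((c : ℤ) + w i + w j)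
  bB : ∀ i j, ((|B i j| : ℤ) : ℝ) ≤ (2 : ℝ) ^ (2 * (N : ℤ) + w i + w j)

/-- The pairs over which we count. -/
structure Xset (g N c : ℕ) (w : Fin (2 * g + 1) → ℤ) (S : Finset ℕ) (h : ℕ → ℤ[X])
    (A B : Mt g ℤ) : Prop where
  box : Box g N c w A B
  con : ∀ q ∈ S, Cg q (chp A B) (X * h q)
  dist : ∀ q ∈ S, DistMod q A B

/-- The polynomial `f` is bad: it is irreducible and comes from a pair. -/
def LBad (g N c : ℕ) (S : Finset ℕ) (h : ℕ → ℤ[X]) (f : ℤ[X]) : Prop :=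
  Irreducible (f.map (Int.castRingHom ℚ)) ∧ ∃ w, Typ g w ∧ Gap g N w ∧
    (Mid g N w ∨ Deep g N c w) ∧ ∃ A B : Mt g ℤ, Xset g N c w S h A B ∧ chp A B = f

/-! ### Counting -/

/-- Over a finite prime field: symmetric matrices `B` which are distinguished with respect to `A`,
with given characteristic polynomial `x h(x)`. -/
def S_CQA : Prop := ∀ (g q : ℕ) [Fact q.Prime], 1 ≤ g → q ≠ 2 → ∀ h : (ZMod q)[X], h.Monic →
  Irreducible h → h.natDegree = 2 * g → ∀ A : Mt g (ZMod q), A.IsSymm → A.det = (-1) ^ g →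
  2 * Nat.card {B : Mt g (ZMod q) // B.IsSymm ∧ chp A B = X * h ∧ Dist A B} ≤
    q ^ (g * (2 * g + 1))

/-- The exponent in the bound for the number of the matrices `A`. -/
def eA (g : ℕ) (w : Fin (2 * g + 1) → ℤ) : ℕ :=
  ∑ p ∈ (Finset.univ : Finset (Fin (2 * g + 1) × Fin (2 * g + 1))).filter (fun p => p.1 ≤ p.2),
    (w p.1 + w p.2).toNat

/-- The exponent in the trivial bound for the number of the matrices `B`, before the trace condition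
is used. -/
def eB (g N : ℕ) (w : Fin (2 * g + 1) → ℤ) : ℕ :=
  ∑ p ∈ (Finset.univ : Finset (Fin (2 * g + 1) × Fin (2 * g + 1))).filter (fun p => p.1 ≤ p.2),
    (2 * (N : ℤ) + w p.1 + w p.2).toNat

/-- The exponent for the number of unipotent matrices. -/
def eU (g : ℕ) (w : Fin (2 * g + 1) → ℤ) : ℕ :=
  ∑ p ∈ (Finset.univ : Finset (Fin (2 * g + 1) × Fin (2 * g + 1))).filter (fun p => p.1 < p.2),
    (w p.2 - w p.1).toNat

/-- The part of the previous exponent with `i + j < 2 g`. -/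
def uu (g : ℕ) (w : Fin (2 * g + 1) → ℤ) : ℕ :=
  ∑ p ∈ (Finset.univ : Finset (Fin (2 * g + 1) × Fin (2 * g + 1))).filter
    (fun p => p.1 < p.2 ∧ (p.1 : ℕ) + p.2 < 2 * g), (w p.2 - w p.1).toNat

/-- The number of pairs in a large box. -/
def S_PB : Prop := ∀ g c : ℕ, 1 ≤ g → ∃ C : ℕ, ∀ (W : ℕ) (S : Finset ℕ) (h : ℕ → ℤ[X]),
  GoodS g W S h → ∀ (N : ℕ) (w : Fin (2 * g + 1) → ℤ), Typ g w →
  ((∏ q ∈ S, q : ℕ) : ℝ) ≤ (2 : ℝ) ^ (2 * (N : ℤ) + 2 * w 0) →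
  2 ^ S.card * (∏ q ∈ S, q ^ (2 * g)) * {p : Mt g ℤ × Mt g ℤ | Xset g N c w S h p.1 p.2}.ncard ≤
    C * 2 ^ (eA g w + 2 * N * dd g)

/-- The trivial bound for the number of pairs. -/
def S_PB0 : Prop := ∀ g c : ℕ, 1 ≤ g → ∃ C : ℕ, ∀ (S : Finset ℕ) (h : ℕ → ℤ[X]) (N : ℕ)
  (w : Fin (2 * g + 1) → ℤ), Typ g w →
  {p : Mt g ℤ × Mt g ℤ | Xset g N c w S h p.1 p.2}.Finite ∧
  2 ^ (2 * N) * {p : Mt g ℤ × Mt g ℤ | Xset g N c w S h p.1 p.2}.ncard ≤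
    C * 2 ^ (eA g w + eB g N w)

/-- Every irreducible `f` comes from at least `2 ^ eU` pairs (unipotent matrices). -/
def S_ORB : Prop := ∀ g : ℕ, ∃ κ : ℕ, ∀ (c : ℕ) (S : Finset ℕ) (h : ℕ → ℤ[X]) (N : ℕ)
  (w : Fin (2 * g + 1) → ℤ), Typ g w →
  {p : Mt g ℤ × Mt g ℤ | Xset g (N + κ) (c + κ) w S h p.1 p.2}.Finite →
  {f : ℤ[X] | Irreducible (f.map (Int.castRingHom ℚ)) ∧
    ∃ A B : Mt g ℤ, Xset g N c w S h A B ∧ chp A B = f}.ncard * 2 ^ eU g w ≤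
  {p : Mt g ℤ × Mt g ℤ | Xset g (N + κ) (c + κ) w S h p.1 p.2}.ncard

/-- The exponents: identity. -/
def S_IDE : Prop := ∀ (g : ℕ) (w : Fin (2 * g + 1) → ℤ), Typ g w →
  eU g w = eA g w + uu g w

/-- The exponents, types with a small middle gap. -/
def S_EXP1 : Prop := ∀ (g N : ℕ) (w : Fin (2 * g + 1) → ℤ), 1 ≤ g → Typ g w → Gap g N w →
  Mid g N w →
  (eB g N w : ℤ) + ∑ i ∈ Finset.univ.filter (fun i : Fin (2 * g + 1) => (i : ℕ) < g),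
    min (- w i) N ≤ 2 * N * dd g + 2 * N + uu g w

/-- The exponents, types with a large middle gap. -/
def S_EXP2 : Prop := ∀ (g N : ℕ) (w : Fin (2 * g + 1) → ℤ), 1 ≤ g → Typ g w → Gap g N w →
  ¬ Mid g N w →
  (eB g N w : ℤ) + (2 * N * g + w 0) ≤ 2 * N * dd g + 2 * N + uu g w

/-- Few bad `f`. -/
def S_BAD : Prop := ∀ g c : ℕ, 1 ≤ g → ∃ C : ℕ, ∀ (W : ℕ) (S : Finset ℕ) (h : ℕ → ℤ[X]),
  GoodS g W S h → ∃ N₀ : ℕ, ∀ N ≥ N₀, {f : ℤ[X] | LBad g N c S h f}.Finite ∧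
  2 ^ S.card * (∏ q ∈ S, q ^ (2 * g)) * {f : ℤ[X] | LBad g N c S h f}.ncard ≤
    C * 2 ^ (2 * N * dd g)

/-! ### The family -/

/-- Many `f` in the family. -/
def S_FAM : Prop := ∀ g : ℕ, 1 ≤ g → ∃ (W : ℕ) (f₁ : ℤ[X]), GoodF g W f₁ ∧
  ∃ c : ℝ, 0 < c ∧ ∀ (S : Finset ℕ) (h : ℕ → ℤ[X]), GoodS g W S h → ∃ B₀ : ℕ, ∀ B ≥ B₀,
    c * (B : ℝ) ^ dd g ≤ ((∏ q ∈ S, q ^ (2 * g) : ℕ) : ℝ) *
      ({f : ℤ[X] | Fam g B W f₁ S h f}.ncard : ℝ)

/-- Existence of `S`. -/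
def S_EXS : Prop := ∀ g W : ℕ, 1 ≤ g → ∀ m : ℕ, ∃ (S : Finset ℕ) (h : ℕ → ℤ[X]),
  GoodS g W S h ∧ S.card = m

end Pool.Agent.N783.PQ
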