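import Pool.Agent.N783.PQ.Loc
import Pool.Agent.N456.PQ.CQA
import Pool.Agent.N951.PQ.Pb
import Pool.Agent.N530.PQ.Orb
import Pool.Agent.N747.PQ.Exp
import Pool.Agent.N850.PQ.Bad
import Pool.Agent.N262.PQ.Exs
import Pool.Agent.N134.PQ.LDZ
import Pool.Agent.N595.PQ.SML
import Pool.Agent.N755.PQ.WK
import Pool.Agent.N891.PQ.Str
import Pool.Agent.N262.PQ.Gf
import Pool.Agent.N316.PQ.Fam
import Pool.Agent.N507.PQ.Hrb
import Pool.Agent.N27.PQ.Typ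
import Pool.Agent.N348.PQ.MAJ
import Pool.Agent.N73.PQ.Chi
import Pool.Agent.N530.PQ.GapSq
import Pool.Agent.N134.PQ.LBZ
import Pool.Agent.N322.PQ.Nbr
import Pool.Agent.N7.PQ.Sqf
import Pool.Agent.N833.PQ.Int
import Pool.Agent.N776.PQ.Sd
import Pool.Agent.N776.PQ.Tv
import Pool.Agent.N340.PQ.Exq
import Pool.Agent.N691.PQ.Par
import Pool.Agent.N2.PQ.Cant
import Pool.Agent.N488.PQ.SPL
import Pool.Agent.N878.PQ.Hsp
import Pool.Agent.N271.PQ.Him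
import Pool.Agent.N394.PQ.PRD
import Pool.Agent.N835.PQ.Rec
import Pool.Agent.N498.PQ.Cpl
import Pool.Agent.N346.PQ.Loc1
import Pool.Agent.N855.PQ.Loc2
import Pool.Agent.N457.PQ.Sqt
import Pool.Agent.N891.PQ.Tw
import Pool.Agent.N400.PQ.Main
import Pool.Agent.N498.PP.Lin

/-!
# Assembly

Project PQ (helper783).
-/

set_option autoImplicit false

namespace Pool.Agent.N783.PQ

theorem bad : S_BAD :=
  Pool.Agent.N850.PQ.bad (Pool.Agent.N951.PQ.pb Pool.Agent.N456.PQ.cqa) Pool.Agent.N951.PQ.pb0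
    Pool.Agent.N530.PQ.orb Pool.Agent.N747.PQ.ide Pool.Agent.N747.PQ.exp1 Pool.Agent.N747.PQ.exp2

theorem fam : S_FAM :=
  Pool.Agent.N316.PQ.fam Pool.Agent.N134.PQ.bx
    (Pool.Agent.N595.PQ.sml Pool.Agent.N134.PQ.ld Pool.Agent.N134.PQ.bx)
    Pool.Agent.N755.PQ.WK.wk Pool.Agent.N891.PQ.str Pool.Agent.N262.PQ.gf Pool.Agent.N262.PQ.dscp

theorem typ : S_TYP := Pool.Agent.N27.PQ.typ Pool.Agent.N507.PQ.hrb

theorem lb : S_LB :=
  Pool.Agent.N134.PQ.lb typ Pool.Agent.N348.PQ.MAJ.maj Pool.Agent.N73.PQ.chi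
    Pool.Agent.N530.PQ.gap Pool.Agent.N530.PQ.sq

theorem sqf : S_SQF :=
  Pool.Agent.N7.PQ.sqf Pool.Agent.N322.PQ.nbr lb Pool.Agent.N73.PQ.chi Pool.Agent.N262.PQ.dscp

theorem int : S_INT := Pool.Agent.N833.PQ.int
theorem exq : S_EXQ := Pool.Agent.N340.PQ.exq int
theorem csq : S_CSQ := Pool.Agent.N340.PQ.csq int
theorem sd : S_SD := Pool.Agent.N776.PQ.sd int
theorem tv : S_TV := Pool.Agent.N776.PQ.tv int
theorem par : S_PAR := Pool.Agent.N691.PQ.par int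
theorem parq : S_PARQ := Pool.Agent.N691.PQ.parq int exq
theorem ns : S_NS := Pool.Agent.N691.PQ.ns int exq
theorem p2 : S_P2 := Pool.Agent.N691.PQ.p2
theorem him : S_HIM :=
  Pool.Agent.N271.PQ.him Pool.Agent.N2.PQ.cant Pool.Agent.N488.PQ.spl Pool.Agent.N878.PQ.hsp
theorem cpl : S_CPL := Pool.Agent.N498.PQ.cpl
theorem loc1 : S_LOC1 := Pool.Agent.N346.PQ.Loc1.loc1 int par cpl
theorem loc2 : S_LOC2 := Pool.Agent.N855.PQ.loc2 int exq csq cpl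

theorem tw (hHUN : S_HUN) (hHQ : S_HQ) : S_TW :=
  Pool.Agent.N891.PQ.tw Pool.Agent.N457.PQ.cls Pool.Agent.N498.PP.lin exq ns parq p2
    (Pool.Agent.N835.PQ.rec Pool.Agent.N394.PQ.prd him hHUN hHQ) loc1 loc2
    Pool.Agent.N457.PQ.sqt sd tv lb sqf

theorem main (hHUN : S_HUN) (hHQ : S_HQ) : S_MAIN :=
  Pool.Agent.N400.PQ.main fam bad Pool.Agent.N262.PQ.exs (tw hHUN hHQ)

end Pool.Agent.N783.PQ
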