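import Mathlib
import Pool.Agent.N783.PQ.JacDef

/-!
# The Jacobian of `y² = f(x)` over `ℚ` and its Tate-Shafarevich group

`a : Fin (2 g) → ℤ`, `f = x ^ (2 g + 1) + a_(2 g - 1) x ^ (2 g - 1) + ... + a_0`, without multiple
roots. The curve `y² = f(x)` has genus `g` and one point at infinity, which is rational. For an
algebraically closed field `L` of characteristic zero the group of the points of the Jacobian over
`L` is the group of the divisor classes of degree zero of the projective curve, which is the class
group of the ring `L[x, y] / (y² - f(x))` of the functions that are regular outside of the point at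
infinity. (Adapted from `Pool.Agent.Y723.SJ.Def`, where all the roots of `f` are integers.)
-/

set_option autoImplicit false

namespace Pool.Agent.N783.PQ.SD

open Polynomial

variable {g : ℕ} (a : Fin (2 * g) → ℤ)

/-- `x ^ (2 g + 1) + a_(2 g - 1) x ^ (2 g - 1) + ... + a_0` -/
noncomputable def polZ : ℤ[X] := X ^ (2 * g + 1) + ∑ i : Fin (2 * g), C (a i) * X ^ (i : ℕ)

/-- the same polynomial over the field `L` -/
noncomputable def pol (L : Type) [Field L] : L[X] := (polZ a).map (Int.castRingHom L)

/-- The ring `L[x, y] / (y² - f(x))`, of the elements `p + q y` with `p`, `q` in `L[x]`, and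
`y * y = f(x) + 0 * y`. -/
def CoordRing (L : Type) [Field L] : Type := QuadraticAlgebra L[X] (pol a L) 0

noncomputable instance instCommRing (L : Type) [Field L] : CommRing (CoordRing a L) :=
  QuadraticAlgebra.instCommRing

instance instIsDomain (L : Type) [Field L] : IsDomain (CoordRing a L) :=
  inferInstanceAs (IsDomain (Pool.Agent.Y723.HJ.CR (Pool.Agent.N783.PQ.fol a L)))

/-- the map of the coordinate rings given by a homomorphism of fields: `p + q y ↦ φ(p) + φ(q) y` -/
noncomputable def coordMap {F L : Type} [Field F] [Field L] (φ : F →+* L) (z : CoordRing a F) :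
    CoordRing a L := (⟨(QuadraticAlgebra.re z).map φ, (QuadraticAlgebra.im z).map φ⟩ :
      QuadraticAlgebra L[X] (pol a L) 0)

lemma pol_map {F L : Type} [Field F] [Field L] (φ : F →+* L) : (pol a F).map φ = pol a L :=
  Pool.Agent.N783.PQ.fol_map a φ

lemma coordMap_zero {F L : Type} [Field F] [Field L] (φ : F →+* L) : coordMap a φ 0 = 0 :=
  map_zero (Pool.Agent.Y723.HJ.mapR φ (pol_map a φ))

lemma coordMap_one {F L : Type} [Field F] [Field L] (φ : F →+* L) : coordMap a φ 1 = 1 :=
  map_one (Pool.Agent.Y723.HJ.mapR φ (pol_map a φ))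

lemma coordMap_add {F L : Type} [Field F] [Field L] (φ : F →+* L) (z w : CoordRing a F) :
    coordMap a φ (z + w) = coordMap a φ z + coordMap a φ w :=
  map_add (Pool.Agent.Y723.HJ.mapR φ (pol_map a φ)) z w

lemma coordMap_mul {F L : Type} [Field F] [Field L] (φ : F →+* L) (z w : CoordRing a F) :
    coordMap a φ (z * w) = coordMap a φ z * coordMap a φ w :=
  map_mul (Pool.Agent.Y723.HJ.mapR φ (pol_map a φ)) z w

/-- `coordMap` as a homomorphism -/
noncomputable def ringMap {F L : Type} [Field F] [Field L] (φ : F →+* L) :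
    CoordRing a F →+* CoordRing a L :=
  ⟨⟨⟨coordMap a φ, coordMap_one a φ⟩, coordMap_mul a φ⟩, coordMap_zero a φ, coordMap_add a φ⟩

lemma ringMap_inj {F L : Type} [Field F] [Field L] (φ : F →+* L) :
    Function.Injective (ringMap a φ) := Pool.Agent.Y723.HJ.mapR_inj φ (pol_map a φ)

/-- The points of the Jacobian of `y² = f(x)` over the algebraically closed field `L`: the
class group of the coordinate ring of the affine curve. -/
def Jac (L : Type) [Field L] : Type := ClassGroup (CoordRing a L)

/-- the group of the points is written additively -/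
noncomputable instance instAddCommGroup (L : Type) [Field L] : AddCommGroup (Jac a L) :=
  Additive.addCommGroup (α := ClassGroup (CoordRing a L))

/-- the map of the points given by a homomorphism of fields (extension of ideals) -/
noncomputable def pointMap {F L : Type} [Field F] [Field L] (φ : F →+* L) (P : Jac a F) :
    Jac a L :=
  letI : Algebra (CoordRing a F) (CoordRing a L) := (ringMap a φ).toAlgebra
  haveI : FaithfulSMul (CoordRing a F) (CoordRing a L) :=
    (faithfulSMul_iff_algebraMap_injective _ _).2 (ringMap_inj a φ)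
  ClassGroup.extendedHom (CoordRing a F) (CoordRing a L) P

lemma pointMap_add {F L : Type} [Field F] [Field L] (φ : F →+* L) (P Q : Jac a F) :
    pointMap a φ (P + Q) = pointMap a φ P + pointMap a φ Q :=
  letI : Algebra (CoordRing a F) (CoordRing a L) := (ringMap a φ).toAlgebra
  haveI : FaithfulSMul (CoordRing a F) (CoordRing a L) :=
    (faithfulSMul_iff_algebraMap_injective _ _).2 (ringMap_inj a φ)
  map_mul (ClassGroup.extendedHom (CoordRing a F) (CoordRing a L)) _ _

/-- the map as a homomorphism (for the proofs) -/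
noncomputable def pointHom {F L : Type} [Field F] [Field L] (φ : F →+* L) : Jac a F →+ Jac a L :=
  AddMonoidHom.mk' (pointMap a φ) (pointMap_add a φ)

lemma pointMap_zero {F L : Type} [Field F] [Field L] (φ : F →+* L) : pointMap a φ 0 = 0 :=
  map_zero (pointHom a φ)

lemma pointMap_neg {F L : Type} [Field F] [Field L] (φ : F →+* L) (P : Jac a F) :
    pointMap a φ (-P) = -pointMap a φ P :=
  map_neg (pointHom a φ) P

/-- the algebraic numbers -/
abbrev QB : Type := AlgebraicClosure ℚ

/-- the absolute Galois group of `ℚ` -/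
abbrev GQ : Type := QB ≃ₐ[ℚ] QB

/-- the action of the Galois group on the points of the Jacobian -/
noncomputable def act (σ : GQ) (P : Jac a QB) : Jac a QB := pointMap a (σ : QB →+* QB) P

lemma act_add (σ : GQ) (P Q : Jac a QB) : act a σ (P + Q) = act a σ P + act a σ Q :=
  pointMap_add a _ P Q

lemma act_zero (σ : GQ) : act a σ 0 = 0 := pointMap_zero a _

lemma act_neg (σ : GQ) (P : Jac a QB) : act a σ (-P) = -act a σ P := pointMap_neg a _ P

/-- the points of the Jacobian over `ℚ` -/
noncomputable def JacQ : AddSubgroup (Jac a QB) where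
  carrier := {P | ∀ σ : GQ, act a σ P = P}
  zero_mem' := fun σ => act_zero a σ
  add_mem' := fun {P Q} hP hQ σ => by rw [act_add, hP, hQ]
  neg_mem' := fun {P} hP σ => by rw [act_neg, hP]

/-- continuous (that is locally constant) 1-cocycles -/
def IsCocycle (f : GQ → Jac a QB) : Prop :=
  IsLocallyConstant f ∧ ∀ σ τ, f (σ * τ) = f σ + act a σ (f τ)

/-- coboundaries `σ ↦ σ P - P` -/
def IsCoboundary (f : GQ → Jac a QB) : Prop := ∃ P, ∀ σ, f σ = act a σ P - P

/-- The restriction of the cocycle `f` to the absolute Galois group of the completion `K` of `ℚ`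
(`K` is `ℚ_p` or `ℝ`) is a coboundary: for every embedding `ι` of the algebraic numbers in an
algebraic closure of `K` there is a point `P` over this algebraic closure with
`ι (f (τ|QB)) = τ P - P` for every automorphism `τ` of the algebraic closure over `K`. -/
def LocallyTrivial (K : Type) [Field K] [Algebra ℚ K] (f : GQ → Jac a QB) : Prop :=
  ∀ ι : QB →ₐ[ℚ] AlgebraicClosure K, ∃ P : Jac a (AlgebraicClosure K),
    ∀ (τ : AlgebraicClosure K ≃ₐ[K] AlgebraicClosure K) (σ : GQ),
      (∀ x : QB, τ (ι x) = ι (σ x)) →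
      pointMap a (ι : QB →+* AlgebraicClosure K) (f σ) =
        pointMap a (τ : AlgebraicClosure K →+* AlgebraicClosure K) P - P

/-- cocycles that are trivial at all places of `ℚ` -/
def IsShaCocycle (f : GQ → Jac a QB) : Prop :=
  IsCocycle a f ∧ (∀ (p : ℕ) [Fact p.Prime], LocallyTrivial a ℚ_[p] f) ∧ LocallyTrivial a ℝ f

/-- the cocycles that are trivial at all places of `ℚ` -/
noncomputable def shaCocycles : AddSubgroup (GQ → Jac a QB) where
  carrier := {f | IsShaCocycle a f}
  zero_mem' := by
    refine ⟨⟨IsLocallyConstant.const _, fun σ τ => ?_⟩, ?_, ?_⟩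
    · simp only [Pi.zero_apply, act_zero, add_zero]
    · intro p _ ι
      exact ⟨0, fun τ σ _ => by simp only [Pi.zero_apply, pointMap_zero, sub_zero]⟩
    · intro ι
      exact ⟨0, fun τ σ _ => by simp only [Pi.zero_apply, pointMap_zero, sub_zero]⟩
  add_mem' := by
    rintro f g ⟨⟨hf1, hf2⟩, hf3, hf4⟩ ⟨⟨hg1, hg2⟩, hg3, hg4⟩
    refine ⟨⟨hf1.add hg1, fun σ τ => ?_⟩, ?_, ?_⟩
    · simp only [Pi.add_apply, hf2, hg2, act_add]
      abel
    · intro p _ ι
      obtain ⟨P, hP⟩ := hf3 p ι
      obtain ⟨Q, hQ⟩ := hg3 p ι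
      refine ⟨P + Q, fun τ σ h => ?_⟩
      simp only [Pi.add_apply, pointMap_add, hP τ σ h, hQ τ σ h]
      abel
    · intro ι
      obtain ⟨P, hP⟩ := hf4 ι
      obtain ⟨Q, hQ⟩ := hg4 ι
      refine ⟨P + Q, fun τ σ h => ?_⟩
      simp only [Pi.add_apply, pointMap_add, hP τ σ h, hQ τ σ h]
      abel
  neg_mem' := by
    rintro f ⟨⟨hf1, hf2⟩, hf3, hf4⟩
    refine ⟨⟨hf1.neg, fun σ τ => ?_⟩, ?_, ?_⟩
    · simp only [Pi.neg_apply, hf2, act_neg]
      abel
    · intro p _ ι
      obtain ⟨P, hP⟩ := hf3 p ι
      refine ⟨-P, fun τ σ h => ?_⟩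
      simp only [Pi.neg_apply, pointMap_neg, hP τ σ h]
      abel
    · intro ι
      obtain ⟨P, hP⟩ := hf4 ι
      refine ⟨-P, fun τ σ h => ?_⟩
      simp only [Pi.neg_apply, pointMap_neg, hP τ σ h]
      abel

/-- the coboundaries -/
noncomputable def coboundaries : AddSubgroup (GQ → Jac a QB) where
  carrier := {f | IsCoboundary a f}
  zero_mem' := ⟨0, fun σ => by simp only [Pi.zero_apply, act_zero, sub_zero]⟩
  add_mem' := by
    rintro f g ⟨P, hP⟩ ⟨Q, hQ⟩
    refine ⟨P + Q, fun σ => ?_⟩
    simp only [Pi.add_apply, hP, hQ, act_add]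
    abel
  neg_mem' := by
    rintro f ⟨P, hP⟩
    refine ⟨-P, fun σ => ?_⟩
    simp only [Pi.neg_apply, hP, act_neg]
    abel

/-- The Tate-Shafarevich group of the Jacobian of `y² = f(x)` over `ℚ`: the cocycles that
are trivial at all places modulo the coboundaries. -/
def Sha : Type := shaCocycles a ⧸ (coboundaries a).addSubgroupOf (shaCocycles a)

noncomputable instance instAddCommGroupSha : AddCommGroup (Sha a) :=
  QuotientAddGroup.Quotient.addCommGroup _

end Pool.Agent.N783.PQ.SD
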